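import Pool.Agent.Y400.Dom.Walk

/-!
# Digraphs without short closed walks in which every small set has a common in-neighbour

For `k ≥ 1` and `g ≥ 2` there is a digraph on at most `2 ^ (7 g g! k ^ (g - 1))` vertices without
closed walks of length `1, ..., g` in which any `k` vertices have a common in-neighbour.
-/

set_option autoImplicit false

namespace Pool.Agent.Y400.Dom

open Finset

/-- Passing from closed walks of length `m` to closed walks of length `m + 1`. -/
def Up {V : Type} (R : V → V → Prop) (m k : ℕ) (x y : ZMod (m + 1) → Fin k → V) : Prop :=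
  (∃ i, x 0 i = y 1 i) ∧ ∀ t, t ≠ 0 → ∀ i, R (x t i) (y (t + 1) i)

lemma up_univ {V : Type} {R : V → V → Prop} {m k : ℕ} (h : Univ R k) : Univ (Up R m k) k := by
  classical
  intro s
  choose c hc using fun (t : ZMod (m + 1)) (i : Fin k) => h (fun j => s j (t + 1) i)
  refine ⟨fun t i => if t = 0 then s i 1 i else c t i, fun j => ⟨⟨j, ?_⟩, ?_⟩⟩
  · simp
  · intro t ht i
    simp only [ht, if_false]
    exact hc t i j

lemma up_iter {V : Type} {R : V → V → Prop} {m k : ℕ} (s : ℕ) (hs : s ≤ m) :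
    ∀ x y : ZMod (m + 1) → Fin k → V, Iter (Up R m k) s x y →
      ∀ i, Iter R s (x (-(s : ZMod (m + 1))) i) (y 0 i) := by
  induction s with
  | zero =>
    intro x y h i
    rw [Iter] at h
    subst h
    simp [Iter]
  | succ s ih =>
    intro x y h i
    obtain ⟨z, hz, h⟩ := h
    refine ⟨z (-(s : ZMod (m + 1))) i, ?_, ih (by omega) z y h i⟩
    have h1 : (-((s + 1 : ℕ) : ZMod (m + 1))) ≠ 0 := by
      rw [Ne, neg_eq_zero, ZMod.natCast_eq_zero_iff]
      intro h2
      exact absurd (Nat.le_of_dvd (by omega) h2) (by omega)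
    have h2 := hz.2 _ h1 i
    have h3 : (-((s + 1 : ℕ) : ZMod (m + 1))) + 1 = -(s : ZMod (m + 1)) := by
      push_cast
      ring
    rwa [h3] at h2

lemma up_noclosed {V : Type} {R : V → V → Prop} {m k : ℕ} (h : ∀ x, ¬ Iter R m x x) :
    ∀ x, ¬ Iter (Up R m k) (m + 1) x x := by
  rintro x ⟨z, hz, h1⟩
  obtain ⟨⟨i, hi⟩, _⟩ := hz
  have h2 := up_iter m le_rfl z x h1 i
  have h3 : -((m : ℕ) : ZMod (m + 1)) = 1 := by
    have h4 : ((m + 1 : ℕ) : ZMod (m + 1)) = 0 := ZMod.natCast_self (m + 1)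
    push_cast at h4
    rw [neg_eq_iff_add_eq_zero]
    exact h4
  rw [h3, hi] at h2
  exact h _ h2

/-- The base case: tournaments. -/
lemma base (k : ℕ) (hk : 1 ≤ k) : ∃ (V : Type) (_ : Fintype V) (_ : Nonempty V)
    (R : V → V → Prop), Univ R k ∧ (∀ x, ¬ Iter R 2 x x) ∧ Fintype.card V ≤ 2 ^ (7 * k) := by
  classical
  have hn : 4 ≤ 2 ^ (7 * k) := by
    calc 4 = 2 ^ 2 := by norm_num
      _ ≤ 2 ^ (7 * k) := Nat.pow_le_pow_right (by norm_num) (by omega)
  have h1 : (2 : ℝ) ^ k * (Real.logb 2 ((2 ^ (7 * k) : ℕ) : ℝ)) ^ 2 < ((2 ^ (7 * k) : ℕ) : ℝ) := by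
    have e1 : Real.logb 2 ((2 ^ (7 * k) : ℕ) : ℝ) = 7 * k := by
      push_cast
      rw [Real.logb_pow, Real.logb_self_eq_one (by norm_num)]
      push_cast
      ring
    rw [e1]
    have h2 : 49 * k ^ 2 < 64 ^ k := by
      clear hn e1
      induction k, hk using Nat.le_induction with
      | base => norm_num
      | succ k hk ih =>
        rw [pow_succ 64 k]
        nlinarith
    have h3 : (49 * (k : ℝ) ^ 2) < 64 ^ k := by exact_mod_cast h2
    have e2 : ((2 ^ (7 * k) : ℕ) : ℝ) = 2 ^ k * 64 ^ k := by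
      push_cast
      rw [← mul_pow, pow_mul]
      norm_num
    rw [e2]
    have h4 : (0 : ℝ) < 2 ^ k := by positivity
    nlinarith
  obtain ⟨hkn, h2⟩ := Pool.Agent.Results.MP_869403_co.LogOrder.counting hn hk h1
  obtain ⟨T, hT, hTk⟩ := Pool.Agent.Results.MP_869403_co.LogOrder.exists_tournament k h2
  refine ⟨Fin (2 ^ (7 * k)), inferInstance, ⟨⟨0, by positivity⟩⟩,
    fun u a => u ≠ a ∧ ¬ T a u, ?_, ?_, by simp⟩
  · intro s
    obtain ⟨S', hS, hS'⟩ := Finset.exists_superset_card_eq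
      (s := (Finset.univ : Finset (Fin k)).image s) (n := k)
      (Finset.card_image_le.trans (by simp)) (by rwa [Fintype.card_fin])
    obtain ⟨u, hu, hua⟩ := hTk S' hS'
    refine ⟨u, fun j => ?_⟩
    have hj : s j ∈ S' := hS (Finset.mem_image_of_mem _ (Finset.mem_univ j))
    exact ⟨fun h => hu (h ▸ hj), hua _ hj⟩
  · rintro x ⟨z, ⟨h3, h4⟩, w, ⟨_, h5⟩, h6⟩
    rw [Iter] at h6
    subst h6
    rcases hT z w (Ne.symm h3) with h | h
    · exact h4 h
    · exact h5 h

lemma single (k : ℕ) (hk : 1 ≤ k) (m : ℕ) (hm : 2 ≤ m) :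
    ∃ (V : Type) (_ : Fintype V) (_ : Nonempty V)
      (R : V → V → Prop), Univ R k ∧ (∀ x, ¬ Iter R m x x) ∧
        Fintype.card V ≤ 2 ^ (7 * m.factorial * k ^ (m - 1)) := by
  classical
  induction m, hm using Nat.le_induction with
  | base =>
    obtain ⟨V, i1, i2, R, h1, h2, h3⟩ := base k hk
    refine ⟨V, i1, i2, R, h1, h2, h3.trans (Nat.pow_le_pow_right (by norm_num) ?_)⟩
    have : Nat.factorial 2 = 2 := rfl
    rw [this]
    norm_num
    omega
  | succ m hm ih =>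
    obtain ⟨V, i1, i2, R, h1, h2, h3⟩ := ih
    refine ⟨ZMod (m + 1) → Fin k → V, inferInstance, inferInstance, Up R m k, up_univ h1,
      up_noclosed h2, ?_⟩
    rw [Fintype.card_fun, Fintype.card_fun, Fintype.card_fin, ZMod.card]
    calc (Fintype.card V ^ k) ^ (m + 1)
        ≤ ((2 ^ (7 * m.factorial * k ^ (m - 1))) ^ k) ^ (m + 1) :=
          Nat.pow_le_pow_left (Nat.pow_le_pow_left h3 _) _
      _ = 2 ^ (7 * m.factorial * k ^ (m - 1) * k * (m + 1)) := by
        rw [← pow_mul, ← pow_mul, Nat.mul_assoc _ k (m + 1)]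
      _ = 2 ^ (7 * (m + 1).factorial * k ^ (m + 1 - 1)) := by
        congr 1
        rw [Nat.factorial_succ, Nat.add_sub_cancel]
        obtain ⟨q, rfl⟩ : ∃ q, m = q + 1 := ⟨m - 1, by omega⟩
        rw [Nat.add_sub_cancel, pow_succ]
        ring

lemma all (k : ℕ) (hk : 1 ≤ k) (g : ℕ) (hg : 2 ≤ g) :
    ∃ (V : Type) (_ : Fintype V) (_ : Nonempty V)
      (R : V → V → Prop), Univ R k ∧ (∀ m, 1 ≤ m → m ≤ g → ∀ x, ¬ Iter R m x x) ∧
        Fintype.card V ≤ 2 ^ (7 * g * g.factorial * k ^ (g - 1)) := by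
  classical
  induction g, hg using Nat.le_induction with
  | base =>
    obtain ⟨V, i1, i2, R, h1, h2, h3⟩ := base k hk
    refine ⟨V, i1, i2, R, h1, ?_, h3.trans (Nat.pow_le_pow_right (by norm_num) ?_)⟩
    · intro m hm1 hm2 x hx
      rcases (by omega : m = 1 ∨ m = 2) with rfl | rfl
      · exact h2 x (Iter.add hx hx)
      · exact h2 x hx
    · have : Nat.factorial 2 = 2 := rfl
      rw [this]
      norm_num
      omega
  | succ g hg ih =>
    obtain ⟨V, i1, i2, R, h1, h2, h3⟩ := ih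
    obtain ⟨W, j1, j2, Q, k1, k2, k3⟩ := single k hk (g + 1) (by omega)
    refine ⟨V × W, inferInstance, inferInstance, fun x y => R x.1 y.1 ∧ Q x.2 y.2, ?_, ?_, ?_⟩
    · intro s
      obtain ⟨u, hu⟩ := h1 (fun j => (s j).1)
      obtain ⟨v, hv⟩ := k1 (fun j => (s j).2)
      exact ⟨(u, v), fun j => ⟨hu j, hv j⟩⟩
    · intro m hm1 hm2 x hx
      rcases (by omega : m ≤ g ∨ m = g + 1) with h | rfl
      · exact h2 m hm1 h x.1 (hx.map Prod.fst (fun _ _ h => h.1))
      · exact k2 x.2 (hx.map Prod.snd (fun _ _ h => h.2))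
    · rw [Fintype.card_prod]
      refine (Nat.mul_le_mul h3 k3).trans ?_
      rw [← pow_add]
      apply Nat.pow_le_pow_right (by norm_num)
      rw [Nat.factorial_succ, Nat.add_sub_cancel]
      have hk1 : k ^ (g - 1) ≤ k ^ g := Nat.pow_le_pow_right hk (by omega)
      have hf : 0 < g.factorial := Nat.factorial_pos g
      have h4 : 7 * g * g.factorial * k ^ (g - 1) ≤ 7 * g * g.factorial * k ^ g :=
        Nat.mul_le_mul_left _ hk1
      have h5 : 7 * g * g.factorial * k ^ g ≤ 7 * g * ((g + 1) * g.factorial) * k ^ g := by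
        apply Nat.mul_le_mul_right
        apply Nat.mul_le_mul_left
        nlinarith
      calc _ ≤ 7 * g * ((g + 1) * g.factorial) * k ^ g + 7 * ((g + 1) * g.factorial) * k ^ g :=
            Nat.add_le_add_right (h4.trans h5) _
        _ = 7 * (g + 1) * ((g + 1) * g.factorial) * k ^ g := by ring

/-- The digraph on exactly `n` vertices. -/
lemma on_fin (k : ℕ) (hk : 1 ≤ k) (g : ℕ) (hg : 2 ≤ g) (n : ℕ)
    (hn : 2 ^ (7 * g * g.factorial * k ^ (g - 1)) ≤ n) :
    ∃ R : Fin n → Fin n → Prop, Univ R k ∧ ∀ m, 1 ≤ m → m ≤ g → ∀ x, ¬ Iter R m x x := by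
  classical
  obtain ⟨V, i1, i2, R, h1, h2, h3⟩ := all k hk g hg
  have hc : Fintype.card V ≤ n := h3.trans hn
  obtain ⟨v⟩ := i2
  let e := Fintype.equivFin V
  let π : Fin n → V := fun i =>
    if h : i.val < Fintype.card V then e.symm ⟨i.val, h⟩ else v
  have hπ : ∀ x, ∃ i, π i = x := by
    intro x
    refine ⟨⟨(e x).val, lt_of_lt_of_le (e x).isLt hc⟩, ?_⟩
    simp only [π, Fin.is_lt, dite_true]
    simp
  choose σ hσ using hπ
  refine ⟨fun x y => R (π x) (π y), ?_, ?_⟩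
  · intro s
    obtain ⟨u, hu⟩ := h1 (fun j => π (s j))
    exact ⟨σ u, fun j => by show R (π (σ u)) (π (s j)); rw [hσ]; exact hu j⟩
  · intro m hm1 hm2 x hx
    exact h2 m hm1 hm2 (π x) (hx.map π (fun _ _ h => h))

end Pool.Agent.Y400.Dom
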