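import Pool.Agent.Results.MP_869403_co.LogOrder

/-!
# Walks and universality in finite digraphs

`Univ R k`: any `k` vertices have a common in-neighbour.  `Iter R m x y`: there is a walk of length
`m` from `x` to `y`.
-/

set_option autoImplicit false

namespace Pool.Agent.Y400.Dom

open Finset

/-- Any `k` vertices have a common in-neighbour. -/
def Univ {V : Type} (R : V → V → Prop) (k : ℕ) : Prop :=
  ∀ s : Fin k → V, ∃ u, ∀ j, R u (s j)

/-- There is a walk of length `m` from `x` to `y`. -/
def Iter {V : Type} (R : V → V → Prop) : ℕ → V → V → Prop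
  | 0, x, y => x = y
  | m + 1, x, y => ∃ z, R x z ∧ Iter R m z y

lemma Iter.add {V : Type} {R : V → V → Prop} {a b : ℕ} {x y z : V} (h1 : Iter R a x y)
    (h2 : Iter R b y z) : Iter R (a + b) x z := by
  induction a generalizing x with
  | zero => rw [Iter] at h1; subst h1; rwa [Nat.zero_add]
  | succ a ih =>
    obtain ⟨w, hw, h⟩ := h1
    rw [Nat.succ_add]
    exact ⟨w, hw, ih h⟩

lemma Iter.map {V W : Type} {R : V → V → Prop} {Q : W → W → Prop} (f : V → W)
    (hf : ∀ x y, R x y → Q (f x) (f y)) {m : ℕ} {x y : V} (h : Iter R m x y) :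
    Iter Q m (f x) (f y) := by
  induction m generalizing x with
  | zero => rw [Iter] at h; subst h; rfl
  | succ m ih =>
    obtain ⟨z, hz, h⟩ := h
    exact ⟨f z, hf _ _ hz, ih h⟩

lemma Univ.zero_nonempty {V : Type} {R : V → V → Prop} (h : Univ R 0) : Nonempty V := by
  obtain ⟨u, _⟩ := h (fun i => i.elim0)
  exact ⟨u⟩

/-- Universality for index types. -/
lemma Univ.index {V : Type} [Nonempty V] {R : V → V → Prop} {k : ℕ} (h : Univ R k) {ι : Type}
    [Fintype ι] (hι : Fintype.card ι ≤ k) (s : ι → V) : ∃ u, ∀ i, R u (s i) := by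
  classical
  let e := Fintype.equivFin ι
  obtain ⟨v⟩ := ‹Nonempty V›
  obtain ⟨u, hu⟩ := h (fun j => if hj : j.val < Fintype.card ι then s (e.symm ⟨j.val, hj⟩) else v)
  refine ⟨u, fun i => ?_⟩
  have h1 := hu ⟨(e i).val, lt_of_lt_of_le (e i).isLt hι⟩
  simp only [Fin.is_lt, dite_true] at h1
  simpa using h1

/-- Universality for finite sets. -/
lemma Univ.finset {V : Type} [Nonempty V] {R : V → V → Prop} {k : ℕ} (h : Univ R k)
    (S : Finset V) (hS : S.card ≤ k) : ∃ u, ∀ a ∈ S, R u a := by
  obtain ⟨u, hu⟩ := h.index (ι := {x // x ∈ S}) (by rwa [Fintype.card_coe]) (fun x => x.1)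
  exact ⟨u, fun a ha => hu ⟨a, ha⟩⟩

lemma Univ.iter {V : Type} {R : V → V → Prop} {k : ℕ} (h : Univ R k) (j : ℕ) :
    Univ (Iter R j) (k ^ j) := by
  induction j with
  | zero =>
    intro s
    refine ⟨s ⟨0, by simp⟩, fun i => ?_⟩
    rw [Iter]
    congr 1
    apply Fin.ext
    have h1 : i.val < 1 := lt_of_lt_of_eq i.isLt (pow_zero k)
    show 0 = i.val
    omega
  | succ j ih =>
    intro s
    have hk : k * k ^ j = k ^ (j + 1) := (pow_succ' k j).symm
    choose z hz using fun a : Fin k => ih (fun b => s (Fin.cast hk (finProdFinEquiv (a, b))))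
    obtain ⟨u, hu⟩ := h z
    refine ⟨u, fun i => ?_⟩
    let ab := finProdFinEquiv.symm (Fin.cast hk.symm i)
    refine ⟨z ab.1, hu _, ?_⟩
    have h1 := hz ab.1 ab.2
    have h2 : finProdFinEquiv (ab.1, ab.2) = Fin.cast hk.symm i := by
      show finProdFinEquiv ab = _
      exact Equiv.apply_symm_apply _ _
    rw [h2] at h1
    exact h1

/-- The vertices of a walk. -/
lemma walk_set {V : Type} [DecidableEq V] {R : V → V → Prop} {m : ℕ} {x y : V}
    (h : Iter R m x y) : ∃ T : Finset V, T.card ≤ m ∧ (1 ≤ m → y ∈ T) ∧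
      ∀ v ∈ T, ∃ u, (u = x ∨ u ∈ T) ∧ R u v := by
  induction m generalizing x with
  | zero => exact ⟨∅, by simp, by simp, by simp⟩
  | succ m ih =>
    obtain ⟨z, hz, h⟩ := h
    obtain ⟨T, hT, hy, hin⟩ := ih h
    refine ⟨insert z T, (Finset.card_insert_le _ _).trans (by omega), fun _ => ?_, ?_⟩
    · rcases Nat.eq_zero_or_pos m with rfl | hm
      · rw [Iter] at h
        subst h
        exact Finset.mem_insert_self _ _
      · exact Finset.mem_insert_of_mem (hy hm)
    · intro v hv
      rcases Finset.mem_insert.1 hv with rfl | hv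
      · exact ⟨x, Or.inl rfl, hz⟩
      · obtain ⟨u, hu, h1⟩ := hin v hv
        rcases hu with rfl | hu
        · exact ⟨u, Or.inr (Finset.mem_insert_self _ _), h1⟩
        · exact ⟨u, Or.inr (Finset.mem_insert_of_mem hu), h1⟩

/-- If every vertex of a finite digraph with at most `g` vertices has an in-neighbour then there is
a closed walk of length at most `g`. -/
lemma exists_closed {V : Type} [Fintype V] [Nonempty V] {R : V → V → Prop} {g : ℕ}
    (hcard : Fintype.card V ≤ g) (h : ∀ x, ∃ u, R u x) :
    ∃ m, 1 ≤ m ∧ m ≤ g ∧ ∃ x, Iter R m x x := by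
  classical
  choose f hf using h
  have hit : ∀ m x, Iter R m (f^[m] x) x := by
    intro m
    induction m with
    | zero => intro x; rfl
    | succ m ih =>
      intro x
      rw [Function.iterate_succ_apply']
      exact ⟨_, hf _, ih x⟩
  obtain ⟨x⟩ := ‹Nonempty V›
  obtain ⟨a, b, hab, h1⟩ := Fintype.exists_ne_map_eq_of_card_lt
    (fun i : Fin (g + 1) => f^[i.val] x) (by rw [Fintype.card_fin]; omega)
  have key : ∀ a b : ℕ, a < b → b ≤ g → f^[a] x = f^[b] x →
      ∃ m, 1 ≤ m ∧ m ≤ g ∧ ∃ x, Iter R m x x := by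
    intro a b hab hb h1
    refine ⟨b - a, by omega, by omega, f^[a] x, ?_⟩
    have h2 := hit (b - a) (f^[a] x)
    rw [← Function.iterate_add_apply, Nat.sub_add_cancel hab.le, ← h1] at h2
    exact h2
  rcases lt_or_gt_of_ne (fun h => hab (Fin.ext h) : a.val ≠ b.val) with h2 | h2
  · exact key a.val b.val h2 (by have := b.isLt; omega) h1
  · exact key b.val a.val h2 (by have := a.isLt; omega) h1.symm

/-- A relation without 2-cycles in which any `q` vertices have a common in-neighbour lives on at
least `2 ^ (q + 1) - 1` vertices. -/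
lemma asymm_card {V : Type} [Fintype V] {M : V → V → Prop} {q : ℕ} (hM : Univ M q)
    (hirr : ∀ x, ¬ M x x) (has : ∀ x y, M x y → ¬ M y x) [Nonempty V] :
    2 ^ (q + 1) < Fintype.card V + 2 := by
  classical
  by_contra hcon
  push Not at hcon
  obtain ⟨P, _, hPc, hP⟩ := Pool.Agent.Results.MP_869403_co.LogOrder.small_dom
    (fun a u => ¬ M u a) (fun u v _ => by
      by_cases h : M v u
      · exact Or.inr (has v u h)
      · exact Or.inl h) q (Finset.univ : Finset V) (by rwa [Finset.card_univ])
  obtain ⟨u, hu⟩ := hM.finset P hPc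
  have huP : u ∉ P := fun h => hirr u (hu u h)
  obtain ⟨a, ha, h⟩ := hP u (Finset.mem_univ u) huP
  exact h (hu a ha)

/-- Two complementary universal relations between `A` and `B`. -/
lemma bipartite_card {V : Type} [DecidableEq V] {M N : V → V → Prop} {t : ℕ} (ht : 2 ≤ t)
    (hMN : ∀ x y, M x y → ¬ N y x) :
    ∀ (s q q' : ℕ), q + q' = s → ∀ A B : Finset V,
      (∀ S ⊆ B, S.card ≤ q → ∃ u ∈ A, ∀ v ∈ S, M u v) →
      (∀ S ⊆ A, S.card ≤ q' → ∃ u ∈ B, ∀ v ∈ S, N u v) →
      t ^ q ≤ A.card ∨ t ^ q' ≤ B.card * (t - 1) ^ q' := by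
  classical
  intro s
  induction s with
  | zero =>
    intro q q' hs A B hA _
    have hq : q = 0 := by omega
    subst hq
    left
    obtain ⟨u, hu, _⟩ := hA ∅ (Finset.empty_subset _) (by simp)
    rw [pow_zero]
    exact Finset.card_pos.2 ⟨u, hu⟩
  | succ s ih =>
    intro q q' hs A B hA hB
    rcases Nat.eq_zero_or_pos q with rfl | hq
    · left
      obtain ⟨u, hu, _⟩ := hA ∅ (Finset.empty_subset _) (by simp)
      rw [pow_zero]
      exact Finset.card_pos.2 ⟨u, hu⟩
    rcases Nat.eq_zero_or_pos q' with rfl | hq'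
    · right
      obtain ⟨u, hu, _⟩ := hB ∅ (Finset.empty_subset _) (by simp)
      rw [pow_zero, pow_zero, mul_one]
      exact Finset.card_pos.2 ⟨u, hu⟩
    by_cases h1 : ∃ b ∈ B, (A.filter (fun a => M a b)).card * t ≤ A.card
    · obtain ⟨b, hb, h1⟩ := h1
      obtain ⟨q, rfl⟩ : ∃ q0, q = q0 + 1 := ⟨q - 1, by omega⟩
      have h2 := ih q q' (by omega) (A.filter (fun a => M a b)) B (by
        intro S hS hSc
        obtain ⟨u, hu, huS⟩ := hA (insert b S) (Finset.insert_subset hb hS)
          ((Finset.card_insert_le _ _).trans (by omega))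
        refine ⟨u, Finset.mem_filter.2 ⟨hu, huS b (Finset.mem_insert_self _ _)⟩, fun v hv => ?_⟩
        exact huS v (Finset.mem_insert_of_mem hv)) (by
        intro S hS hSc
        exact hB S (hS.trans (Finset.filter_subset _ _)) hSc)
      rcases h2 with h2 | h2
      · left
        rw [pow_succ]
        exact (Nat.mul_le_mul_right t h2).trans h1
      · right; exact h2
    · push Not at h1
      have h3 : ∃ a ∈ A, (B.filter (fun b => N b a)).card * t ≤ B.card * (t - 1) := by
        by_contra hcon
        push Not at hcon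
        have hBne : B.Nonempty := by
          obtain ⟨u, hu, _⟩ := hB ∅ (Finset.empty_subset _) (by simp)
          exact ⟨u, hu⟩
        have hAne : A.Nonempty := by
          obtain ⟨u, hu, _⟩ := hA ∅ (Finset.empty_subset _) (by simp)
          exact ⟨u, hu⟩
        have h4 : B.card * A.card < (∑ b ∈ B, (A.filter (fun a => M a b)).card) * t := by
          rw [Finset.sum_mul, ← smul_eq_mul, ← Finset.sum_const]
          exact Finset.sum_lt_sum_of_nonempty hBne h1
        have h5 : A.card * (B.card * (t - 1)) <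
            (∑ a ∈ A, (B.filter (fun b => N b a)).card) * t := by
          rw [Finset.sum_mul, ← smul_eq_mul, ← Finset.sum_const]
          exact Finset.sum_lt_sum_of_nonempty hAne hcon
        have h6 : (∑ b ∈ B, (A.filter (fun a => M a b)).card) +
            (∑ a ∈ A, (B.filter (fun b => N b a)).card) ≤ A.card * B.card := by
          have e1 : (∑ b ∈ B, (A.filter (fun a => M a b)).card) =
              ∑ a ∈ A, (B.filter (fun b => M a b)).card := by
            simp only [Finset.card_filter]
            exact Finset.sum_comm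
          rw [e1, ← Finset.sum_add_distrib, ← smul_eq_mul, ← Finset.sum_const]
          apply Finset.sum_le_sum
          intro a _
          rw [← Finset.card_union_of_disjoint]
          · apply Finset.card_le_card
            exact Finset.union_subset (Finset.filter_subset _ _) (Finset.filter_subset _ _)
          · rw [Finset.disjoint_left]
            intro b hb hb'
            exact hMN a b (Finset.mem_filter.1 hb).2 (Finset.mem_filter.1 hb').2
        have h7 : ((∑ b ∈ B, (A.filter (fun a => M a b)).card) +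
            (∑ a ∈ A, (B.filter (fun b => N b a)).card)) * t ≤ A.card * B.card * t :=
          Nat.mul_le_mul_right t h6
        obtain ⟨t, rfl⟩ : ∃ t0, t = t0 + 1 := ⟨t - 1, by omega⟩
        rw [Nat.add_sub_cancel] at h5
        nlinarith
      obtain ⟨a, ha, h3⟩ := h3
      obtain ⟨q', rfl⟩ : ∃ q0, q' = q0 + 1 := ⟨q' - 1, by omega⟩
      have h2 := ih q q' (by omega) A (B.filter (fun b => N b a)) (by
        intro S hS hSc
        exact hA S (hS.trans (Finset.filter_subset _ _)) hSc) (by
        intro S hS hSc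
        obtain ⟨u, hu, huS⟩ := hB (insert a S) (Finset.insert_subset ha hS)
          ((Finset.card_insert_le _ _).trans (by omega))
        refine ⟨u, Finset.mem_filter.2 ⟨hu, huS a (Finset.mem_insert_self _ _)⟩, fun v hv => ?_⟩
        exact huS v (Finset.mem_insert_of_mem hv))
      rcases h2 with h2 | h2
      · left; exact h2
      · right
        calc t ^ (q' + 1) = t ^ q' * t := pow_succ _ _
          _ ≤ ((B.filter (fun b => N b a)).card * (t - 1) ^ q') * t := Nat.mul_le_mul_right t h2
          _ = ((B.filter (fun b => N b a)).card * t) * (t - 1) ^ q' := by ring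
          _ ≤ (B.card * (t - 1)) * (t - 1) ^ q' := Nat.mul_le_mul_right _ h3
          _ = B.card * (t - 1) ^ (q' + 1) := by ring

/-- Lower bound for the number of vertices of a digraph with two complementary universal
relations. -/
lemma pair_card {V : Type} [Fintype V] [Nonempty V] {M N : V → V → Prop} {t q q' : ℕ}
    (ht : 2 ≤ t) (hMN : ∀ x y, M x y → ¬ N y x) (hM : Univ M q) (hN : Univ N q') :
    t ^ q ≤ Fintype.card V ∨ t ^ q' ≤ Fintype.card V * (t - 1) ^ q' := by
  classical
  have := bipartite_card ht hMN (q + q') q q' rfl Finset.univ Finset.univ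
    (fun S _ hS => by
      obtain ⟨u, hu⟩ := hM.finset S hS
      exact ⟨u, Finset.mem_univ u, hu⟩)
    (fun S _ hS => by
      obtain ⟨u, hu⟩ := hN.finset S hS
      exact ⟨u, Finset.mem_univ u, hu⟩)
  rwa [Finset.card_univ] at this

end Pool.Agent.Y400.Dom
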